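import Pool.Agent.N165.KM.Basic
import Pool.Agent.L0h18.CO.Defs
import Pool.Agent.Y167.ConeDef

/-!
Project LL. Lorentzian lattices: definitions and the statements of the modules.

`Q` is an integral symmetric matrix of signature `(1, ρ - 1)`, `h` a vector with `Q(h,h) > 0`,
`posC Q h` the component of `{x | Q(x,x) > 0}` which contains `h`.
-/

set_option autoImplicit false

open Pool.Agent.Y167 (cone)
open Pool.Agent.N165.KM (IntL)
open Pool.Agent.L0h18.CO (IsOpenCone)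
open Filter Topology

namespace Pool.Agent.L0h16.LL

variable {ρ : ℕ}

/-- The bilinear form with the integral matrix `Q`. -/
def bil (Q : Matrix (Fin ρ) (Fin ρ) ℤ) (x z : Fin ρ → ℝ) : ℝ :=
  ∑ i, ∑ j, (Q i j : ℝ) * x i * z j

/-- `Q` is symmetric, positive at `h` and negative definite on the orthogonal complement of `h`: so it
has signature `(1, ρ - 1)`. -/
structure IsLorentz (Q : Matrix (Fin ρ) (Fin ρ) ℤ) (h : Fin ρ → ℝ) : Prop where
  symm : ∀ i j, Q i j = Q j i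
  pos : 0 < bil Q h h
  neg : ∀ x, bil Q h x = 0 → x ≠ 0 → bil Q x x < 0

/-- The open positive cone: the component of the set of the vectors of positive square which contains
`h`. -/
def posC (Q : Matrix (Fin ρ) (Fin ρ) ℤ) (h : Fin ρ → ℝ) : Set (Fin ρ → ℝ) :=
  {x | 0 < bil Q x x ∧ 0 < bil Q h x}

/-- `T` is an isometry of the lattice `ℤ ^ ρ` with the form `Q` which preserves the positive cone. -/
structure IsIsom (Q : Matrix (Fin ρ) (Fin ρ) ℤ) (h : Fin ρ → ℝ)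
    (T : (Fin ρ → ℝ) ≃ₗ[ℝ] (Fin ρ → ℝ)) : Prop where
  form : ∀ x z, bil Q (T x) (T z) = bil Q x z
  int : ∀ x, T x ∈ IntL ρ ↔ x ∈ IntL ρ
  pos : ∀ x ∈ posC Q h, T x ∈ posC Q h

/-- `𝒢` has finite index in the group of the isometries which preserve the positive cone: every such
isometry is `g ∘ f` with `g ∈ 𝒢` and `f` in a finite set. -/
def FinIndex (Q : Matrix (Fin ρ) (Fin ρ) ℤ) (h : Fin ρ → ℝ)
    (𝒢 : Set ((Fin ρ → ℝ) ≃ₗ[ℝ] (Fin ρ → ℝ))) : Prop :=
  ∃ F : Set ((Fin ρ → ℝ) ≃ₗ[ℝ] (Fin ρ → ℝ)), F.Finite ∧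
    ∀ T, IsIsom Q h T → ∃ g ∈ 𝒢, ∃ f ∈ F, ∀ x, T x = g (f x)

/-! ### elementary properties of `bil` -/

theorem bil_add_left (Q : Matrix (Fin ρ) (Fin ρ) ℤ) (x y z : Fin ρ → ℝ) :
    bil Q (x + y) z = bil Q x z + bil Q y z := by
  unfold bil
  rw [← Finset.sum_add_distrib]
  refine Finset.sum_congr rfl fun i _ => ?_
  rw [← Finset.sum_add_distrib]
  refine Finset.sum_congr rfl fun j _ => ?_
  rw [Pi.add_apply]; ring

theorem bil_add_right (Q : Matrix (Fin ρ) (Fin ρ) ℤ) (x y z : Fin ρ → ℝ) :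
    bil Q x (y + z) = bil Q x y + bil Q x z := by
  unfold bil
  rw [← Finset.sum_add_distrib]
  refine Finset.sum_congr rfl fun i _ => ?_
  rw [← Finset.sum_add_distrib]
  refine Finset.sum_congr rfl fun j _ => ?_
  rw [Pi.add_apply]; ring

theorem bil_smul_left (Q : Matrix (Fin ρ) (Fin ρ) ℤ) (t : ℝ) (x z : Fin ρ → ℝ) :
    bil Q (t • x) z = t * bil Q x z := by
  unfold bil
  rw [Finset.mul_sum]
  refine Finset.sum_congr rfl fun i _ => ?_
  rw [Finset.mul_sum]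
  refine Finset.sum_congr rfl fun j _ => ?_
  rw [Pi.smul_apply, smul_eq_mul]; ring

theorem bil_smul_right (Q : Matrix (Fin ρ) (Fin ρ) ℤ) (t : ℝ) (x z : Fin ρ → ℝ) :
    bil Q x (t • z) = t * bil Q x z := by
  unfold bil
  rw [Finset.mul_sum]
  refine Finset.sum_congr rfl fun i _ => ?_
  rw [Finset.mul_sum]
  refine Finset.sum_congr rfl fun j _ => ?_
  rw [Pi.smul_apply, smul_eq_mul]; ring

theorem bil_neg_left (Q : Matrix (Fin ρ) (Fin ρ) ℤ) (x z : Fin ρ → ℝ) :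
    bil Q (-x) z = -bil Q x z := by
  have := bil_smul_left Q (-1) x z
  rwa [neg_one_smul, neg_one_mul] at this

theorem bil_neg_right (Q : Matrix (Fin ρ) (Fin ρ) ℤ) (x z : Fin ρ → ℝ) :
    bil Q x (-z) = -bil Q x z := by
  have := bil_smul_right Q (-1) x z
  rwa [neg_one_smul, neg_one_mul] at this

theorem bil_sub_left (Q : Matrix (Fin ρ) (Fin ρ) ℤ) (x y z : Fin ρ → ℝ) :
    bil Q (x - y) z = bil Q x z - bil Q y z := by
  rw [sub_eq_add_neg, bil_add_left, bil_neg_left, sub_eq_add_neg]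

theorem bil_sub_right (Q : Matrix (Fin ρ) (Fin ρ) ℤ) (x y z : Fin ρ → ℝ) :
    bil Q x (y - z) = bil Q x y - bil Q x z := by
  rw [sub_eq_add_neg, bil_add_right, bil_neg_right, sub_eq_add_neg]

theorem bil_zero_left (Q : Matrix (Fin ρ) (Fin ρ) ℤ) (z : Fin ρ → ℝ) : bil Q 0 z = 0 := by
  have := bil_smul_left Q 0 0 z
  rwa [zero_smul, zero_mul] at this

theorem bil_zero_right (Q : Matrix (Fin ρ) (Fin ρ) ℤ) (z : Fin ρ → ℝ) : bil Q z 0 = 0 := by
  have := bil_smul_right Q 0 z 0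
  rwa [zero_smul, zero_mul] at this

theorem bil_comm {Q : Matrix (Fin ρ) (Fin ρ) ℤ} (hQ : ∀ i j, Q i j = Q j i) (x z : Fin ρ → ℝ) :
    bil Q x z = bil Q z x := by
  unfold bil
  rw [Finset.sum_comm]
  refine Finset.sum_congr rfl fun i _ => Finset.sum_congr rfl fun j _ => ?_
  rw [hQ]; ring

theorem continuous_bil (Q : Matrix (Fin ρ) (Fin ρ) ℤ) :
    Continuous (fun p : (Fin ρ → ℝ) × (Fin ρ → ℝ) => bil Q p.1 p.2) := by
  unfold bil
  fun_prop

/-- the form is integral on integral vectors -/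
theorem bil_int (Q : Matrix (Fin ρ) (Fin ρ) ℤ) {x z : Fin ρ → ℝ} (hx : x ∈ IntL ρ)
    (hz : z ∈ IntL ρ) : ∃ m : ℤ, bil Q x z = m := by
  choose a ha using hx
  choose b hb using hz
  refine ⟨∑ i, ∑ j, Q i j * a i * b j, ?_⟩
  unfold bil
  push_cast
  refine Finset.sum_congr rfl fun i _ => Finset.sum_congr rfl fun j _ => ?_
  rw [ha, hb]

end Pool.Agent.L0h16.LL
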