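import Pool.Agent.L0h16.LL.Defs
import Pool.Agent.N110.CC.Stm

/-!
Project LL: statements of the modules.
-/

set_option autoImplicit false

open Pool.Agent.Y167 (cone)
open Pool.Agent.N165.KM (IntL)
open Pool.Agent.L0h18.CO (IsOpenCone)
open Pool.Agent.N110.CC (PC)
open Filter Topology

namespace Pool.Agent.L0h16.LL

/-- the positive definite form attached to `y` (homogeneous of degree two in `y`) -/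
def qf {ρ : ℕ} (Q : Matrix (Fin ρ) (Fin ρ) ℤ) (y v : Fin ρ → ℝ) : ℝ :=
  2 * (bil Q y v) ^ 2 - bil Q y y * bil Q v v

/-- no nonzero integral vector is short for the form attached to `y` -/
def Thick {ρ : ℕ} (Q : Matrix (Fin ρ) (Fin ρ) ℤ) (y : Fin ρ → ℝ) : Prop :=
  ∀ v ∈ IntL ρ, v ≠ 0 → bil Q y y ≤ qf Q y v

/-- (CONE) the positive cone -/
def S_CONE : Prop :=
  ∀ (ρ : ℕ) (Q : Matrix (Fin ρ) (Fin ρ) ℤ) (h : Fin ρ → ℝ), IsLorentz Q h →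
    h ∈ posC Q h ∧ IsOpenCone (posC Q h) ∧
    (∀ x, x ∈ closure (posC Q h) ↔ 0 ≤ bil Q x x ∧ 0 ≤ bil Q h x) ∧
    interior (closure (posC Q h)) = posC Q h ∧
    (∀ x, 0 < bil Q x x → x ∈ posC Q h ∨ -x ∈ posC Q h) ∧
    (∀ x, 0 ≤ bil Q x x → x ∈ closure (posC Q h) ∨ -x ∈ closure (posC Q h))

/-- (BASE) change of the base point -/
def S_BASE : Prop :=
  ∀ (ρ : ℕ) (Q : Matrix (Fin ρ) (Fin ρ) ℤ) (h : Fin ρ → ℝ), IsLorentz Q h →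
    ∀ y ∈ posC Q h, IsLorentz Q y ∧ posC Q y = posC Q h

/-- (PAIR) pairings of elements of the closed cone, self-duality, nondegeneracy -/
def S_PAIR : Prop :=
  ∀ (ρ : ℕ) (Q : Matrix (Fin ρ) (Fin ρ) ℤ) (h : Fin ρ → ℝ), IsLorentz Q h →
    (∀ x ∈ posC Q h, ∀ z ∈ closure (posC Q h), z ≠ 0 → 0 < bil Q x z) ∧
    (∀ x ∈ closure (posC Q h), ∀ z ∈ closure (posC Q h), 0 ≤ bil Q x z) ∧
    (∀ x ∈ closure (posC Q h), ∀ z ∈ closure (posC Q h), x ≠ 0 → z ≠ 0 → bil Q x z = 0 →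
      bil Q x x = 0 ∧ bil Q z z = 0 ∧ ∃ t : ℝ, 0 < t ∧ x = t • z) ∧
    (∀ z, (∀ x ∈ posC Q h, 0 ≤ bil Q z x) → z ∈ closure (posC Q h)) ∧
    (∀ x, (∀ z, bil Q x z = 0) → x = 0)

/-- (HYP) inequalities for the form attached to `y` -/
def S_HYP : Prop :=
  ∀ (ρ : ℕ) (Q : Matrix (Fin ρ) (Fin ρ) ℤ) (h : Fin ρ → ℝ), IsLorentz Q h →
    ∀ y ∈ posC Q h,
      (∀ v, v ≠ 0 → 0 < qf Q y v) ∧
      (∀ v, |bil Q v v| * bil Q y y ≤ qf Q y v) ∧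
      (∀ v, (bil Q y v) ^ 2 ≤ qf Q y v) ∧
      (∀ v w, (bil Q y y * bil Q v w) ^ 2 ≤ qf Q y v * qf Q y w) ∧
      (∀ e ∈ closure (posC Q h), ∀ e' ∈ closure (posC Q h), bil Q e e = 0 → bil Q e' e' = 0 →
        bil Q y y * bil Q e e' ≤ 2 * bil Q y e * bil Q y e')

/-- (ISO) inverses of isometries -/
def S_ISO : Prop :=
  ∀ (ρ : ℕ) (Q : Matrix (Fin ρ) (Fin ρ) ℤ) (h : Fin ρ → ℝ), IsLorentz Q h →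
    ∀ T, IsIsom Q h T → IsIsom Q h T.symm ∧
      (∀ x, T x ∈ posC Q h ↔ x ∈ posC Q h) ∧
      (∀ x, T x ∈ closure (posC Q h) ↔ x ∈ closure (posC Q h))

/-- (MIN) Minkowski's theorem at thick points -/
def S_MIN : Prop :=
  ∀ (ρ : ℕ) (Q : Matrix (Fin ρ) (Fin ρ) ℤ) (h : Fin ρ → ℝ), IsLorentz Q h →
    ∃ L : ℝ, ∀ y ∈ posC Q h, Thick Q y →
      ∃ G : Matrix (Fin ρ) (Fin ρ) ℤ, G.det ≠ 0 ∧
        ∀ j, qf Q y (fun i => (G j i : ℝ)) ≤ L * bil Q y y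

/-- (GRAM) finitely many classes of bases of sublattices with bounded Gram matrices: with finitely
many of them `Gs`, every integral matrix `G` with `det G ≠ 0` and `|Q(G_i, G_j)| ≤ L` is mapped to one
of them by an isometry of `ℤ ^ ρ` (which need not preserve the positive cone). -/
def S_GRAM : Prop :=
  ∀ (ρ : ℕ) (Q : Matrix (Fin ρ) (Fin ρ) ℤ) (L : ℝ), Q.det ≠ 0 →
    ∃ Gs : Set (Matrix (Fin ρ) (Fin ρ) ℤ), Gs.Finite ∧ (∀ G ∈ Gs, G.det ≠ 0) ∧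
      ∀ G : Matrix (Fin ρ) (Fin ρ) ℤ, G.det ≠ 0 →
        (∀ i j, |bil Q (fun k => (G i k : ℝ)) (fun k => (G j k : ℝ))| ≤ L) →
        ∃ T : (Fin ρ → ℝ) ≃ₗ[ℝ] (Fin ρ → ℝ), (∀ x z, bil Q (T x) (T z) = bil Q x z) ∧
          (∀ x, T x ∈ IntL ρ ↔ x ∈ IntL ρ) ∧
          ∃ G' ∈ Gs, ∀ i, T (fun k => (G i k : ℝ)) = fun k => (G' i k : ℝ)

/-- (CPT) the group acts cocompactly on the thick part -/
def S_CPT : Prop :=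
  ∀ (ρ : ℕ) (Q : Matrix (Fin ρ) (Fin ρ) ℤ) (h : Fin ρ → ℝ), IsLorentz Q h →
    ∃ K : Set (Fin ρ → ℝ), IsCompact K ∧ K ⊆ posC Q h ∧
      ∀ y ∈ posC Q h, Thick Q y → ∃ T, IsIsom Q h T ∧ ∃ t : ℝ, 0 < t ∧ t • T y ∈ K

/-- (CUSP) every point is thick, or near a cusp `e` and on the segment from a thick point to `e` -/
def S_CUSP : Prop :=
  ∀ (ρ : ℕ) (Q : Matrix (Fin ρ) (Fin ρ) ℤ) (h : Fin ρ → ℝ), IsLorentz Q h →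
    ∀ x ∈ posC Q h, Thick Q x ∨ ∃ e ∈ IntL ρ, e ≠ 0 ∧ e ∈ closure (posC Q h) ∧ bil Q e e = 0 ∧
      ∃ s : ℝ, 0 < s ∧ x - s • e ∈ posC Q h ∧ Thick Q (x - s • e) ∧
        2 * (bil Q (x - s • e) e) ^ 2 = bil Q (x - s • e) (x - s • e)

/-- (COV) finitely many integral vectors of the closed cone generate a cone whose translates cover the
positive cone -/
def S_COV : Prop :=
  ∀ (ρ : ℕ) (Q : Matrix (Fin ρ) (Fin ρ) ℤ) (h : Fin ρ → ℝ), IsLorentz Q h →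
    ∃ E : Finset (Fin ρ → ℝ), (∀ e ∈ E, e ∈ IntL ρ ∧ e ∈ closure (posC Q h)) ∧
      ∀ x ∈ posC Q h, ∃ T, IsIsom Q h T ∧ T x ∈ cone E

/-- (COVG) the same for a group of finite index -/
def S_COVG : Prop :=
  ∀ (ρ : ℕ) (Q : Matrix (Fin ρ) (Fin ρ) ℤ) (h : Fin ρ → ℝ), IsLorentz Q h →
    ∀ 𝒢 : Set ((Fin ρ → ℝ) ≃ₗ[ℝ] (Fin ρ → ℝ)), (∀ T ∈ 𝒢, IsIsom Q h T) →
      (∀ T ∈ 𝒢, T.symm ∈ 𝒢) → FinIndex Q h 𝒢 →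
      ∃ E : Finset (Fin ρ → ℝ), (∀ e ∈ E, e ∈ IntL ρ ∧ e ∈ closure (posC Q h)) ∧
        ∀ x ∈ posC Q h, ∃ T ∈ 𝒢, T x ∈ cone E

/-- (HGT) if the translates of the cone generated by the finite set `S` cover the positive cone then
every cusp is a translate of an element of `S` -/
def S_HGT : Prop :=
  ∀ (ρ : ℕ) (Q : Matrix (Fin ρ) (Fin ρ) ℤ) (h : Fin ρ → ℝ), IsLorentz Q h →
    ∀ 𝒢 : Set ((Fin ρ → ℝ) ≃ₗ[ℝ] (Fin ρ → ℝ)), (∀ T ∈ 𝒢, IsIsom Q h T) →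
    ∀ S : Finset (Fin ρ → ℝ), (∀ s ∈ S, s ∈ IntL ρ ∧ s ∈ closure (posC Q h)) →
      (∀ x ∈ posC Q h, ∃ T ∈ 𝒢, T x ∈ cone S) →
      ∀ e ∈ IntL ρ, e ≠ 0 → e ∈ closure (posC Q h) → bil Q e e = 0 →
        ∃ T ∈ 𝒢, ∃ s ∈ S, ∃ t : ℝ, 0 < t ∧ T e = t • s

/-- (EIC) Eichler transvections -/
def S_EIC : Prop :=
  ∀ (ρ : ℕ) (Q : Matrix (Fin ρ) (Fin ρ) ℤ) (h : Fin ρ → ℝ), IsLorentz Q h → 3 ≤ ρ →
    ∀ e ∈ IntL ρ, e ≠ 0 → e ∈ closure (posC Q h) → bil Q e e = 0 →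
      ∃ u : ℕ → ((Fin ρ → ℝ) ≃ₗ[ℝ] (Fin ρ → ℝ)), (∀ n, IsIsom Q h (u n)) ∧
        ∀ x ∈ posC Q h, ∃ c : ℝ, 0 < c ∧
          Tendsto (fun n : ℕ => ((1 : ℝ) / ((n : ℝ) + 1) ^ 2) • u n x) atTop (𝓝 (c • e))

/-- (LIM) cusps are limits of orbits of a group of finite index -/
def S_LIM : Prop :=
  ∀ (ρ : ℕ) (Q : Matrix (Fin ρ) (Fin ρ) ℤ) (h : Fin ρ → ℝ), IsLorentz Q h → 3 ≤ ρ →
    ∀ 𝒢 : Set ((Fin ρ → ℝ) ≃ₗ[ℝ] (Fin ρ → ℝ)), (∀ T ∈ 𝒢, IsIsom Q h T) →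
      (∀ T ∈ 𝒢, T.symm ∈ 𝒢) → FinIndex Q h 𝒢 →
    ∀ D : Set (Fin ρ → ℝ), IsClosed D → (∀ t : ℝ, 0 ≤ t → ∀ x ∈ D, t • x ∈ D) →
      (∀ T ∈ 𝒢, ∀ x ∈ D, T x ∈ D) → ∀ x₀ ∈ posC Q h, x₀ ∈ D →
    ∀ e ∈ IntL ρ, e ≠ 0 → e ∈ closure (posC Q h) → bil Q e e = 0 → e ∈ D

/-- (RIG) an invariant closed convex cone which meets the positive cone contains it -/
def S_RIG : Prop :=
  ∀ (ρ : ℕ) (Q : Matrix (Fin ρ) (Fin ρ) ℤ) (h : Fin ρ → ℝ), IsLorentz Q h → 3 ≤ ρ →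
    ∀ 𝒢 : Set ((Fin ρ → ℝ) ≃ₗ[ℝ] (Fin ρ → ℝ)), (∀ T ∈ 𝒢, IsIsom Q h T) →
      (∀ T ∈ 𝒢, T.symm ∈ 𝒢) → FinIndex Q h 𝒢 →
    ∀ D : Set (Fin ρ → ℝ), IsClosed D → (∀ x ∈ D, ∀ z ∈ D, x + z ∈ D) →
      (∀ t : ℝ, 0 ≤ t → ∀ x ∈ D, t • x ∈ D) →
      (∀ T ∈ 𝒢, ∀ x ∈ D, T x ∈ D) → ∀ x₀ ∈ posC Q h, x₀ ∈ D → closure (posC Q h) ⊆ D

/-- (RIG2) an invariant closed convex cone without lines which meets the positive cone is its closure -/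
def S_RIG2 : Prop :=
  ∀ (ρ : ℕ) (Q : Matrix (Fin ρ) (Fin ρ) ℤ) (h : Fin ρ → ℝ), IsLorentz Q h → 3 ≤ ρ →
    ∀ 𝒢 : Set ((Fin ρ → ℝ) ≃ₗ[ℝ] (Fin ρ → ℝ)), (∀ T ∈ 𝒢, IsIsom Q h T) →
      (∀ T ∈ 𝒢, T.symm ∈ 𝒢) → FinIndex Q h 𝒢 →
    ∀ C : Set (Fin ρ → ℝ), PC C → (∀ T ∈ 𝒢, ∀ x ∈ C, T x ∈ C) →
      ∀ x₀ ∈ posC Q h, x₀ ∈ C → C = closure (posC Q h)

/-- (SIM) lattice automorphisms which preserve the positive cone are isometries -/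
def S_SIM : Prop :=
  ∀ (ρ : ℕ) (Q : Matrix (Fin ρ) (Fin ρ) ℤ) (h : Fin ρ → ℝ), IsLorentz Q h →
    ∀ T : (Fin ρ → ℝ) ≃ₗ[ℝ] (Fin ρ → ℝ), (∀ x, T x ∈ IntL ρ ↔ x ∈ IntL ρ) →
      (∀ x, T x ∈ posC Q h ↔ x ∈ posC Q h) → IsIsom Q h T

end Pool.Agent.L0h16.LL
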